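import Pool.Agent.Y978.EK.Inter

/-!
# Project EK: the coefficients of the chain
-/

set_option autoImplicit false

namespace Pool.Agent.Y978.EK

open Pool.Agent.Y302.Trunc
open Pool.Agent.Y5 Pool.Agent.Y5.D Pool.Agent.Y6.K

/-- the coefficients without the scale -/
noncomputable def Gc (i : ℕ) : ℝ :=
  ((num i : ℝ) / (den i : ℝ)) * √(nrm ((i + 1) % 4)) / nrm i

theorem Ac_eq (a i : ℕ) (hi : i < 4) : Ac (4 * a + i) = 2 * Real.pi * 8 ^ a * Gc i := by
  unfold Ac Gc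
  have h1 : (4 * a + i) % 4 = i := by omega
  have h2 : (4 * a + i + 1) % 4 = (i + 1) % 4 := by omega
  have h3 : (sg 1 (4 * a + i) : ℝ) = 8 ^ a := by
    unfold sg
    have h4 : (4 * a + i) / 4 = a := by omega
    rw [h4]
    push_cast
    ring
  rw [h1, h2, h3]
  ring

theorem s240 : (15.49 : ℝ) ≤ √240 ∧ √240 ≤ 15.5 := by
  constructor
  · apply Real.le_sqrt_of_sq_le; norm_num
  · rw [Real.sqrt_le_left (by norm_num)]; norm_num

theorem s264 : (16.24 : ℝ) ≤ √264 ∧ √264 ≤ 16.25 := by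
  constructor
  · apply Real.le_sqrt_of_sq_le; norm_num
  · rw [Real.sqrt_le_left (by norm_num)]; norm_num

theorem s312 : (17.66 : ℝ) ≤ √312 ∧ √312 ≤ 17.67 := by
  constructor
  · apply Real.le_sqrt_of_sq_le; norm_num
  · rw [Real.sqrt_le_left (by norm_num)]; norm_num

theorem s528 : (22.97 : ℝ) ≤ √528 ∧ √528 ≤ 22.98 := by
  constructor
  · apply Real.le_sqrt_of_sq_le; norm_num
  · rw [Real.sqrt_le_left (by norm_num)]; norm_num

theorem G0 : (0.387 : ℝ) ≤ Gc 0 ∧ Gc 0 ≤ 0.388 := by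
  have h : Gc 0 = 66 / 5 * √240 / 528 := by norm_num [Gc, num, den, nrm]
  obtain ⟨h1, h2⟩ := s240
  rw [h]
  constructor <;> linarith

theorem G1 : (0.738 : ℝ) ≤ Gc 1 ∧ Gc 1 ≤ 0.739 := by
  have h : Gc 1 = 120 / 11 * √264 / 240 := by norm_num [Gc, num, den, nrm]
  obtain ⟨h1, h2⟩ := s264
  rw [h]
  constructor <;> linarith

theorem G2 : (1.358 : ℝ) ≤ Gc 2 ∧ Gc 2 ≤ 1.36 := by
  have h : Gc 2 = 264 / 13 * √312 / 264 := by norm_num [Gc, num, den, nrm]
  obtain ⟨h1, h2⟩ := s312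
  rw [h]
  constructor <;> linarith

theorem G3 : (2.088 : ℝ) ≤ Gc 3 ∧ Gc 3 ≤ 2.09 := by
  have h : Gc 3 = 312 / 11 * √528 / 312 := by norm_num [Gc, num, den, nrm]
  obtain ⟨h1, h2⟩ := s528
  rw [h]
  constructor <;> linarith

theorem step (n : ℕ) : 7 / 5 * Ac n ≤ Ac (n + 1) ∧ Ac (n + 1) ≤ 2 * Ac n := by
  obtain ⟨a, i, hi, rfl⟩ : ∃ a i, i < 4 ∧ n = 4 * a + i := ⟨n / 4, n % 4, by omega, by omega⟩
  have hc : 0 < 2 * Real.pi * 8 ^ a := by positivity
  have e3 : Ac (4 * a + 3 + 1) = 2 * Real.pi * 8 ^ a * (8 * Gc 0) := by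
    have := Ac_eq (a + 1) 0 (by norm_num)
    rw [show 4 * (a + 1) + 0 = 4 * a + 3 + 1 by ring] at this
    rw [this, pow_succ]
    ring
  have key : ∀ g g' : ℝ, 7 / 5 * g ≤ g' → g' ≤ 2 * g →
      7 / 5 * (2 * Real.pi * 8 ^ a * g) ≤ 2 * Real.pi * 8 ^ a * g' ∧
      2 * Real.pi * 8 ^ a * g' ≤ 2 * (2 * Real.pi * 8 ^ a * g) := by
    intro g g' h1 h2
    constructor
    · have := mul_le_mul_of_nonneg_left h1 hc.le
      linarith
    · have := mul_le_mul_of_nonneg_left h2 hc.le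
      linarith
  obtain ⟨g0, g0'⟩ := G0
  obtain ⟨g1, g1'⟩ := G1
  obtain ⟨g2, g2'⟩ := G2
  obtain ⟨g3, g3'⟩ := G3
  interval_cases i
  · rw [Ac_eq a 0 (by norm_num), show 4 * a + 0 + 1 = 4 * a + 1 by ring, Ac_eq a 1 (by norm_num)]
    exact key _ _ (by linarith) (by linarith)
  · rw [Ac_eq a 1 (by norm_num), show 4 * a + 1 + 1 = 4 * a + 2 by ring, Ac_eq a 2 (by norm_num)]
    exact key _ _ (by linarith) (by linarith)
  · rw [Ac_eq a 2 (by norm_num), show 4 * a + 2 + 1 = 4 * a + 3 by ring, Ac_eq a 3 (by norm_num)]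
    exact key _ _ (by linarith) (by linarith)
  · rw [Ac_eq a 3 (by norm_num), e3]
    exact key _ _ (by linarith) (by linarith)

theorem chain : Chain Ac where
  A0 := by
    have h := Ac_eq 0 0 (by norm_num)
    simp only [mul_zero, add_zero, pow_zero, mul_one] at h
    rw [h]
    have h1 := Real.pi_gt_three
    have h2 := G0.1
    nlinarith
  lo := fun n => (step n).1
  hi := fun n => (step n).2

theorem size (n : ℕ) : (rho 1 n : ℝ) ≤ 100 * Ac n ^ 2 ∧ Ac n ^ 2 ≤ 100 * (rho 1 n : ℝ) := by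
  obtain ⟨a, i, hi, rfl⟩ : ∃ a i, i < 4 ∧ n = 4 * a + i := ⟨n / 4, n % 4, by omega, by omega⟩
  rw [Ac_eq a i hi]
  have h1 : (4 * a + i) % 4 = i := by omega
  have h3 : (rho 1 (4 * a + i) : ℝ) = (8 ^ a) ^ 2 * rb i := by
    unfold rho sg
    have h4 : (4 * a + i) / 4 = a := by omega
    rw [h4, h1]
    push_cast
    ring
  rw [h3]
  have e : (2 * Real.pi * 8 ^ a * Gc i) ^ 2 = (8 ^ a) ^ 2 * (2 * Real.pi * Gc i) ^ 2 := by ring
  rw [e]
  have hc : (0 : ℝ) < (8 ^ a) ^ 2 := by positivity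
  have key : ∀ r g : ℝ, r ≤ 100 * g → g ≤ 100 * r →
      (8 ^ a) ^ 2 * r ≤ 100 * ((8 ^ a) ^ 2 * g) ∧ (8 ^ a) ^ 2 * g ≤ 100 * ((8 ^ a) ^ 2 * r) := by
    intro r g h1 h2
    constructor
    · have := mul_le_mul_of_nonneg_left h1 hc.le
      linarith
    · have := mul_le_mul_of_nonneg_left h2 hc.le
      linarith
  have hp := Real.pi_gt_three
  have hp' := Real.pi_lt_four
  have sq : ∀ g lo hi : ℝ, 0 ≤ lo → lo ≤ g → g ≤ hi →
      (6 * lo) ^ 2 ≤ (2 * Real.pi * g) ^ 2 ∧ (2 * Real.pi * g) ^ 2 ≤ (8 * hi) ^ 2 := by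
    intro g lo hi h0 h1 h2
    have h3 : 6 * lo ≤ 2 * Real.pi * g := by
      have := mul_le_mul (show (6 : ℝ) ≤ 2 * Real.pi by linarith) h1 h0 (by linarith)
      linarith
    have h4 : 2 * Real.pi * g ≤ 8 * hi := by
      have := mul_le_mul (show 2 * Real.pi ≤ (8 : ℝ) by linarith) h2 (h0.trans h1) (by norm_num)
      linarith
    exact ⟨pow_le_pow_left₀ (by linarith) h3 2,
      pow_le_pow_left₀ (by have := h0.trans h1; positivity) h4 2⟩
  interval_cases i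
  · obtain ⟨h5, h6⟩ := sq _ _ _ (by norm_num) G0.1 G0.2
    norm_num at h5 h6
    exact key _ _ (by norm_num [rb]; linarith) (by norm_num [rb]; linarith)
  · obtain ⟨h5, h6⟩ := sq _ _ _ (by norm_num) G1.1 G1.2
    norm_num at h5 h6
    exact key _ _ (by norm_num [rb]; linarith) (by norm_num [rb]; linarith)
  · obtain ⟨h5, h6⟩ := sq _ _ _ (by norm_num) G2.1 G2.2
    norm_num at h5 h6
    exact key _ _ (by norm_num [rb]; linarith) (by norm_num [rb]; linarith)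
  · obtain ⟨h5, h6⟩ := sq _ _ _ (by norm_num) G3.1 G3.2
    norm_num at h5 h6
    exact key _ _ (by norm_num [rb]; linarith) (by norm_num [rb]; linarith)

theorem cj2 : S_CJ2 :=
  ⟨table, idle, chain, size⟩

theorem t_CJ2 : S_CJ1 → S_CJ2 := fun _ => cj2

end Pool.Agent.Y978.EK
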