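import Pool.Agent.Y6.K.Stm
import Pool.Agent.Y248.ND.Bil

/-!
# Project EK: finite checks
-/

set_option autoImplicit false

namespace Pool.Agent.Y978.EK

open Pool.Agent.Y302.Trunc

/-- negative of an integer vector -/
def ng (v : Z3) : Z3 := (-v.1, -v.2.1, -v.2.2)

/-- the directions of the idle modes -/
def bz (i : ℕ) (p : ℕ) : ℤ := if i % 2 = 0 then (match p with | 0 => 0 | 1 => -1 | _ => 1)
  else (match p with | 0 => 1 | 1 => 0 | _ => 0)

/-- frequencies of the idle modes of the four base levels -/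
def κz : ℕ → Z3
  | 0 => (3, 1, 1) | 1 => (0, 2, 6) | 2 => (4, 6, 6) | _ => (0, 8, 12)

/-- the quadratic symbol of the levels `i`, `j` at `w`, times the direction -/
def sy (i j d : ℕ) (w : Z3) : ℤ :=
  ((Lx i).map fun v => term i j w v 0).sum * bz d 0 +
  ((Lx i).map fun v => term i j w v 1).sum * bz d 1 +
  ((Lx i).map fun v => term i j w v 2).sum * bz d 2

def chk1 (i : ℕ) : Bool := sy i (i + 1) i (κz i) == 0 && sy i (i + 1) i (ng (κz i)) == 0 &&
  sy (i + 1) i i (κz i) == 0 && sy (i + 1) i i (ng (κz i)) == 0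

theorem chk1_all : ∀ i < 4, chk1 i = true := by decide +kernel

/-- amplitudes and frequencies of the idle modes are orthogonal to the directions -/
def chk2 (i : ℕ) (w : Z3) : Bool :=
  fx i w.1 * bz i 0 + fx i w.2.1 * bz i 1 + fx i w.2.2 * bz i 2 == 0 &&
  w.1 * bz i 0 + w.2.1 * bz i 1 + w.2.2 * bz i 2 == 0 && decide (w ∈ Lx i)

theorem chk2_all : ∀ i < 4, (chk2 i (κz i) && chk2 i (ng (κz i))) = true := by decide +kernel

/-- sum of squares of the amplitudes -/
def nz : ℕ → ℤ
  | 0 => 528 | 1 => 240 | 2 => 264 | _ => 312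

theorem nz_all : ∀ i < 4,
    ((Lx i).map fun v => fx i v.1 ^ 2 + fx i v.2.1 ^ 2 + fx i v.2.2 ^ 2).sum = nz i := by
  decide +kernel

end Pool.Agent.Y978.EK
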