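import Pool.Agent.Y978.EK.Fin

/-!
# Project EK: the interaction table
-/

set_option autoImplicit false

open Finset

namespace Pool.Agent.Y978.EK

open Pool.Agent.Y302.Trunc
open Pool.Agent.Y5 Pool.Agent.Y5.D Pool.Agent.Y6.K

/-- frequencies -/
abbrev Fq := Fin 3 → ℤ

theorem inner_ivec (a b : Fq) : (inner ℝ (ivec a) (ivec b) : ℝ) = ((∑ r, a r * b r : ℤ) : ℝ) := by
  rw [PiLp.inner_apply]
  push_cast
  refine Finset.sum_congr rfl (fun r _ => ?_)
  simp [ivec, mul_comm]

theorem vec_eq (k : Fq) : vec k = ivec k := rfl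

theorem ivec_smul (c : ℤ) (a : Fq) : ivec (fun r => c * a r) = (c : ℝ) • ivec a := by
  ext r
  simp [ivec]

theorem ivec_sum {α : Type} (s : Finset α) (g : α → Fq) :
    ivec (fun r => ∑ v ∈ s, g v r) = ∑ v ∈ s, ivec (g v) := by
  ext r
  simp [ivec]

/-- normalisation -/
noncomputable def cf (n : ℕ) : ℝ := (√(nrm (n % 4)))⁻¹

theorem Em_mem {n : ℕ} {k : Fq} (h : k ∈ Lev 1 n) : Em n k = cf n • ivec (am 1 n k) := by
  unfold Em cf
  rw [if_pos h]

theorem Em_notMem {n : ℕ} {k : Fq} (h : k ∉ Lev 1 n) : Em n k = 0 := by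
  unfold Em
  rw [if_neg h]

theorem OT_Em (n : ℕ) : OT (Em n) := by
  constructor
  · intro k
    by_cases h : k ∈ Lev 1 n
    · rw [Em_mem h, Em_mem (neg_mem_Lev one_pos h), ← smul_neg]
      congr 1
      have h1 : am 1 n (-k) = fun r => (-1) * am 1 n k r :=
        funext (fun r => by rw [am_neg one_pos h]; ring)
      rw [h1, ivec_smul]
      simp
    · rw [Em_notMem h, Em_notMem, neg_zero]
      intro h'
      apply h
      have := neg_mem_Lev one_pos h'
      rwa [neg_neg] at this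
  · intro k
    by_cases h : k ∈ Lev 1 n
    · rw [Em_mem h, inner_smul_right, vec_eq, inner_ivec]
      have h1 : ∑ r, k r * am 1 n k r = 0 := by
        rw [← am_orth one_pos h]
        exact Finset.sum_congr rfl (fun r _ => mul_comm _ _)
      rw [h1]
      simp
    · rw [Em_notMem h, inner_zero_right]

/-- the symbol -/
def Qs (p q : ℕ) (k : Fq) (r : Fin 3) : ℤ :=
  quadSym (Lev 1 p) (am 1 p) (Lev 1 q) (am 1 q) k r

theorem bil_Em (p q : ℕ) (Z : Fam) (U : Finset Fq) (hU : ∀ k, Z k ≠ 0 → k ∈ U) :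
    bil (Em p) (Em q) Z =
      -(2 * Real.pi) * (cf p * cf q * ∑ k ∈ U, inner ℝ (ivec (Qs p q k)) (Z k)) := by
  rw [Y248.ND.bil_eq_sum (Em p) (Em q) Z (Lev 1 p) U (fun k hk => by
    by_contra h
    exact hk (Em_notMem h)) hU]
  refine congrArg (fun z => -(2 * Real.pi) * z) ?_
  rw [Finset.mul_sum (a := cf p * cf q)]
  refine Finset.sum_congr rfl (fun k _ => ?_)
  have h1 : ivec (Qs p q k) = ∑ v ∈ Lev 1 p, if k - v ∈ Lev 1 q then
      ((∑ r, am 1 p v r * (k - v) r : ℤ) : ℝ) • ivec (am 1 q (k - v)) else 0 := by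
    have h2 : Qs p q k = fun r => ∑ v ∈ Lev 1 p, (fun v r => if k - v ∈ Lev 1 q then
        (∑ r', am 1 p v r' * (k - v) r') * am 1 q (k - v) r else 0) v r := rfl
    rw [h2, ivec_sum]
    refine Finset.sum_congr rfl (fun v _ => ?_)
    by_cases h : k - v ∈ Lev 1 q
    · simp only [if_pos h]
      exact ivec_smul _ _
    · simp only [if_neg h]
      ext r
      simp [ivec]
  rw [h1, sum_inner, Finset.mul_sum]
  refine Finset.sum_congr rfl (fun v hv => ?_)
  by_cases h : k - v ∈ Lev 1 q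
  · rw [if_pos h, Em_mem hv, Em_mem h, inner_smul_left, inner_smul_left, inner_smul_left, vec_eq,
      inner_ivec]
    have h3 : ∑ r, am 1 p v r * k r = ∑ r, am 1 p v r * (k - v) r := by
      have h4 := am_orth one_pos hv
      have h5 : ∑ r, am 1 p v r * (k - v) r =
          ∑ r, am 1 p v r * k r - ∑ r, am 1 p v r * v r := by
        rw [← Finset.sum_sub_distrib]
        exact Finset.sum_congr rfl (fun r _ => by rw [Pi.sub_apply]; ring)
      rw [h5, h4, sub_zero]
    rw [h3]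
    simp only [conj_trivial]
    ring
  · rw [if_neg h, Em_notMem h, inner_zero_left]
    ring

theorem Qs_zero {p q n : ℕ} {k : Fq} (hk : k ∈ Lev 1 n)
    (h : ¬ ((p = q ∧ n = p + 1) ∨ (n = p ∧ q = n + 1) ∨ (n = q ∧ p = q + 1))) :
    Qs p q k = 0 := by
  funext r
  unfold Qs quadSym
  refine Finset.sum_eq_zero (fun v hv => ?_)
  rw [if_neg]
  intro h1
  have h2 : v + (k - v) ∈ Lev 1 n := by rwa [add_sub_cancel]
  have h3 := classify one_pos hv h1 h2
  omega

theorem ivec_zero : ivec 0 = 0 := by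
  ext r
  simp [ivec]

/-- sums over a level -/
theorem sum_Lev (n : ℕ) (g : Fq → ℤ) :
    ∑ k ∈ Lev 1 n, g k = ((Lx (n % 4)).map fun v => g (sg 1 n • toK v)).sum := by
  have hi : n % 4 < 4 := Nat.mod_lt _ (by norm_num)
  have hs := (sg_pos one_pos n).ne'
  rw [← List.sum_toFinset _ (nodup_Lx _ hi.le), Lev, LevX,
    Finset.sum_image fun x _ y _ h => smul_toK_inj hs h]

theorem sum_am (n : ℕ) : ∑ k ∈ Lev 1 n, ∑ r, am 1 n k r * am 1 n k r = nz (n % 4) := by
  have hi : n % 4 < 4 := Nat.mod_lt _ (by norm_num)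
  rw [sum_Lev, ← nz_all _ hi]
  congr 1
  refine List.map_congr_left (fun v _ => ?_)
  rw [Fin.sum_univ_three, am_smul one_pos, am_smul one_pos, am_smul one_pos, ← fx_eq hi]
  simp only [co, Fin.val_zero, Fin.val_one, Fin.val_two]
  ring

theorem nrm_eq (n : ℕ) : nrm (n % 4) = (nz (n % 4) : ℝ) := by
  have hi : n % 4 < 4 := Nat.mod_lt _ (by norm_num)
  interval_cases n % 4 <;> norm_num [nrm, nz]

theorem nrm_pos (i : ℕ) : 0 < nrm i := by
  unfold nrm
  split <;> norm_num

theorem den_ne (n : ℕ) : (den (n % 4) : ℝ) ≠ 0 := by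
  have hi : n % 4 < 4 := Nat.mod_lt _ (by norm_num)
  interval_cases n % 4 <;> norm_num [den]

/-- the forward symbol -/
theorem Qs_fwd (n : ℕ) {k : Fq} (hk : k ∈ Lev 1 (n + 1)) :
    ivec (Qs n n k) = (den (n % 4) : ℝ)⁻¹ •
      (-((sg 1 n : ℝ) * num (n % 4)) • ivec (am 1 (n + 1) k) + (pin (n % 4) : ℝ) • ivec k) := by
  have h1 : (den (n % 4) : ℝ) • ivec (Qs n n k) =
      -((sg 1 n : ℝ) * num (n % 4)) • ivec (am 1 (n + 1) k) + (pin (n % 4) : ℝ) • ivec k := by
    ext r
    have h2 := forward one_pos n hk r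
    have h3 : (den (n % 4) : ℝ) * (Qs n n k r : ℝ) =
        -((sg 1 n : ℝ) * num (n % 4)) * am 1 (n + 1) k r + pin (n % 4) * k r := by
      unfold Qs
      exact_mod_cast h2
    simpa [ivec] using h3
  rw [← h1, smul_smul, inv_mul_cancel₀ (den_ne n), one_smul]

theorem inner_Qs_fwd (n : ℕ) {k : Fq} (hk : k ∈ Lev 1 (n + 1)) :
    (inner ℝ (ivec (Qs n n k)) (Em (n + 1) k) : ℝ) =
      -(cf (n + 1) * ((sg 1 n : ℝ) * num (n % 4) / den (n % 4))) *
        ((∑ r, am 1 (n + 1) k r * am 1 (n + 1) k r : ℤ) : ℝ) := by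
  rw [Qs_fwd n hk, Em_mem hk]
  rw [inner_smul_left, inner_smul_right, inner_add_left, inner_smul_left, inner_smul_left,
    inner_ivec, inner_ivec]
  have h1 : ∑ r, k r * am 1 (n + 1) k r = 0 := by
    rw [← am_orth one_pos hk]
    exact Finset.sum_congr rfl (fun r _ => mul_comm _ _)
  rw [h1]
  simp only [conj_trivial, Int.cast_zero, mul_zero, add_zero]
  field_simp

theorem bil_fwd (n : ℕ) : bil (Em n) (Em n) (Em (n + 1)) = Ac n := by
  rw [bil_Em n n (Em (n + 1)) (Lev 1 (n + 1)) (fun k hk => by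
    by_contra h
    exact hk (Em_notMem h))]
  have h1 : ∑ k ∈ Lev 1 (n + 1), (inner ℝ (ivec (Qs n n k)) (Em (n + 1) k) : ℝ) =
      -(cf (n + 1) * ((sg 1 n : ℝ) * num (n % 4) / den (n % 4))) * nrm ((n + 1) % 4) := by
    rw [nrm_eq, ← sum_am (n + 1)]
    push_cast
    rw [Finset.mul_sum]
    refine Finset.sum_congr rfl (fun k hk => ?_)
    rw [inner_Qs_fwd n hk]
    push_cast
    ring
  rw [h1]
  have h2 : cf n * cf n = (nrm (n % 4))⁻¹ := by
    unfold cf
    rw [← mul_inv, Real.mul_self_sqrt (nrm_pos _).le]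
  have h3 : cf (n + 1) * nrm ((n + 1) % 4) = √(nrm ((n + 1) % 4)) := by
    unfold cf
    have h4 : √(nrm ((n + 1) % 4)) ≠ 0 := (Real.sqrt_pos.2 (nrm_pos _)).ne'
    rw [inv_mul_eq_div, div_eq_iff h4, Real.mul_self_sqrt (nrm_pos _).le]
  unfold Ac
  rw [h2]
  have h5 : -(cf (n + 1) * ((sg 1 n : ℝ) * num (n % 4) / den (n % 4))) * nrm ((n + 1) % 4) =
      -(((sg 1 n : ℝ) * num (n % 4) / den (n % 4)) * √(nrm ((n + 1) % 4))) := by
    rw [← h3]; ring
  rw [h5]
  field_simp

theorem bil_same (p n : ℕ) : bil (Em p) (Em n) (Em n) = 0 := by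
  have h := Y248.ND.bil_anti (Em p) (Em n) (Em n) (OT_Em p)
  linarith

theorem table (p q n : ℕ) : bil (Em p) (Em q) (Em n) =
    (if p = q ∧ n = p + 1 then Ac p else 0) - (if p = n ∧ q = n + 1 then Ac n else 0) := by
  by_cases h1 : p = q ∧ n = p + 1
  · obtain ⟨rfl, rfl⟩ := h1
    rw [if_pos ⟨rfl, rfl⟩, if_neg (by omega), sub_zero]
    exact bil_fwd p
  · rw [if_neg h1]
    by_cases h2 : p = n ∧ q = n + 1
    · obtain ⟨rfl, rfl⟩ := h2
      rw [if_pos ⟨rfl, rfl⟩, Y248.ND.bil_anti _ _ _ (OT_Em p), bil_fwd, zero_sub]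
    · rw [if_neg h2, sub_zero]
      by_cases h3 : n = q
      · subst h3
        exact bil_same p n
      · rw [bil_Em p q (Em n) (Lev 1 n) (fun k hk => by
          by_contra h
          exact hk (Em_notMem h)), Finset.sum_eq_zero, mul_zero, mul_zero]
        intro k hk
        rw [Qs_zero hk (by omega), ivec_zero, inner_zero_left]

/-! ### idle modes -/

/-- the direction as a frequency -/
def bf (i : ℕ) : Fq := fun r => bz i r

theorem bdir_eq (n : ℕ) : ∃ c : ℝ, bdir n = c • ivec (bf (n % 4)) := by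
  have h2 : (n % 4) % 2 = n % 2 := by omega
  by_cases h : n % 2 = 0
  · refine ⟨(√2)⁻¹, ?_⟩
    unfold bdir
    rw [if_pos h]
    congr 2
    funext r
    fin_cases r <;> simp [bf, bz, h2, h]
  · refine ⟨1, ?_⟩
    unfold bdir
    rw [if_neg h, one_smul]
    congr 1
    funext r
    fin_cases r <;> simp [bf, bz, h2, h]

theorem κ_eq (n : ℕ) : κ n = sg 1 n • toK (κz (n % 4)) := by
  unfold κ
  have hi : n % 4 < 4 := Nat.mod_lt _ (by norm_num)
  interval_cases n % 4 <;> rfl

theorem neg_κ_eq (n : ℕ) : -κ n = sg 1 n • toK (ng (κz (n % 4))) := by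
  rw [κ_eq, ← smul_neg]
  congr 1
  funext r
  fin_cases r <;> rfl

/-- the symbols are orthogonal to the direction of the idle mode -/
theorem orth_all (p q n : ℕ) (w : Pool.Agent.Y302.Trunc.Z3)
    (hw : w = κz (n % 4) ∨ w = ng (κz (n % 4))) :
    ∑ r, Qs p q (sg 1 n • toK w) r * bf (n % 4) r = 0 := by
  have hi : n % 4 < 4 := Nat.mod_lt _ (by norm_num)
  have hs := (sg_pos one_pos n).ne'
  have hc2 : chk2 (n % 4) w = true := by
    have h := chk2_all _ hi
    rw [Bool.and_eq_true] at h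
    rcases hw with rfl | rfl
    · exact h.1
    · exact h.2
  unfold chk2 at hc2
  simp only [Bool.and_eq_true, beq_iff_eq, decide_eq_true_eq] at hc2
  obtain ⟨⟨ha, hb⟩, hmem⟩ := hc2
  have hLev : sg 1 n • toK w ∈ Lev 1 n := by
    rw [mem_Lev one_pos, ← Lx_eq hi]
    exact hmem
  by_cases hcl : (p = q ∧ n = p + 1) ∨ (n = p ∧ q = n + 1) ∨ (n = q ∧ p = q + 1)
  swap
  · rw [Qs_zero hLev hcl]
    simp
  rcases hcl with ⟨rfl, rfl⟩ | ⟨rfl, rfl⟩ | ⟨rfl, rfl⟩
  · -- forward
    have hden : den (p % 4) ≠ 0 := by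
      have := den_ne p
      exact_mod_cast this
    have h1 : den (p % 4) * ∑ r, Qs p p (sg 1 (p + 1) • toK w) r * bf ((p + 1) % 4) r = 0 := by
      rw [Finset.mul_sum]
      have h2 : ∀ r : Fin 3, den (p % 4) * (Qs p p (sg 1 (p + 1) • toK w) r * bf ((p + 1) % 4) r) =
          (-(sg 1 p * num (p % 4)) * am 1 (p + 1) (sg 1 (p + 1) • toK w) r +
            pin (p % 4) * (sg 1 (p + 1) • toK w) r) * bf ((p + 1) % 4) r := by
        intro r
        rw [← forward one_pos p hLev r]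
        unfold Qs
        ring
      rw [Finset.sum_congr rfl (fun r _ => h2 r)]
      simp only [Fin.sum_univ_three, am_smul one_pos, ← fx_eq hi, Pi.smul_apply, smul_eq_mul,
        toK, co, Fin.val_zero, Fin.val_one, Fin.val_two, bf]
      linear_combination (-(sg 1 p * num (p % 4))) * ha + (pin (p % 4) * sg 1 (p + 1)) * hb
    exact (mul_eq_zero.1 h1).resolve_left hden
  · -- `p = n`, `q = n + 1`
    have hc := chk1_all _ hi
    unfold chk1 at hc
    simp only [Bool.and_eq_true, beq_iff_eq] at hc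
    have h1 : sy (n % 4) (n % 4 + 1) (n % 4) w = 0 := by
      rcases hw with rfl | rfl
      · exact hc.1.1.1
      · exact hc.1.1.2
    have h2 : ∀ r, Qs n (n + 1) (sg 1 n • toK w) r =
        sg 1 n * ((Lx (n % 4)).map fun v => term (n % 4) (n % 4 + 1) w v r).sum := by
      intro r
      unfold Qs
      rw [Lev_succ, am_succ', Lev, am_eq, quadSym_eq hs hi.le (by omega)]
    simp only [h2, Fin.sum_univ_three, bf, Fin.val_zero, Fin.val_one, Fin.val_two]
    unfold sy at h1
    linear_combination (sg 1 n) * h1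
  · -- `q = n`, `p = n + 1`
    have hc := chk1_all _ hi
    unfold chk1 at hc
    simp only [Bool.and_eq_true, beq_iff_eq] at hc
    have h1 : sy (n % 4 + 1) (n % 4) (n % 4) w = 0 := by
      rcases hw with rfl | rfl
      · exact hc.1.2
      · exact hc.2
    have h2 : ∀ r, Qs (n + 1) n (sg 1 n • toK w) r =
        sg 1 n * ((Lx (n % 4 + 1)).map fun v => term (n % 4 + 1) (n % 4) w v r).sum := by
      intro r
      unfold Qs
      rw [Lev_succ, am_succ', Lev, am_eq, quadSym_eq hs (by omega) hi.le]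
    simp only [h2, Fin.sum_univ_three, bf, Fin.val_zero, Fin.val_one, Fin.val_two]
    unfold sy at h1
    linear_combination (sg 1 n) * h1

theorem idle (p q n : ℕ) : bil (Em p) (Em q) (Ym n) = 0 := by
  classical
  rw [bil_Em p q (Ym n) {κ n, -κ n} (fun k hk => by
    by_contra h
    rw [Finset.mem_insert, Finset.mem_singleton, not_or] at h
    apply hk
    unfold Ym
    rw [if_neg h.1, if_neg h.2]), Finset.sum_eq_zero, mul_zero, mul_zero]
  obtain ⟨c, hc⟩ := bdir_eq n
  have h1 : ∀ k ∈ ({κ n, -κ n} : Finset Fq),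
      (inner ℝ (ivec (Qs p q k)) (ivec (bf (n % 4))) : ℝ) = 0 := by
    intro k hk
    rw [inner_ivec]
    rw [Finset.mem_insert, Finset.mem_singleton] at hk
    rcases hk with rfl | rfl
    · rw [κ_eq, orth_all p q n _ (Or.inl rfl), Int.cast_zero]
    · rw [neg_κ_eq, orth_all p q n _ (Or.inr rfl), Int.cast_zero]
  intro k hk
  unfold Ym
  split_ifs
  · rw [hc, inner_smul_right, inner_smul_right, h1 k hk]
    ring
  · rw [hc, inner_neg_right, inner_smul_right, inner_smul_right, h1 k hk]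
    ring
  · rw [inner_zero_right]

end Pool.Agent.Y978.EK
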